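import Pool.Agent.MP_5d9b3c_ag.O3O.Kit

/-! The properties that follow directly from those of the chamber. -/

namespace Pool.Agent.MP_ee8c61_ag.N3.P3O

open Pool.Agent.MP_ee8c61_ag.M3

set_option linter.unusedSectionVars false

variable [Base]

open M3 M3E M3K M3RESID M3F H59 Finset

theorem ovol (hV : IVol) : AllO fun _ _ _ D _ => D.Vol := by
  intro f la b β Q M r K B o X Y Y' h
  have v := hV _ _ _ _ _ _ _ _ _ _ h.sit h.av h.as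
  exact ⟨v.srf, v.q0, v.ψ0, v.rat, v.exp⟩

theorem osem (E : EOut) : OSem := by
  intro f la b β Q M r K B o X Y Y' h
  have z := B.pt_o h.sit.ok h.sit.zero
  refine ⟨B.t0, h.aok.t1, h.aok.ε, h.aok.m, fun Γ hΓ => ?_, fun Γ hΓ => ?_, fun j Γ hΓ => ?_⟩
  · rw [h.th_eq]
    exact M3CH.RISem.dg' B.C o E h.sit.alive Γ hΓ.bas (z _) h.aok.c0 h.aok.T0
  · rw [h.th_eq]
    exact M3CH.RISem.dg' B.C o E h.sit.alive Γ hΓ.bas (z _) h.aok.c1 h.aok.T1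
  · rw [h.th_eq, β_T, ← smul_eq_mul (B.sd la b o X Y).ε, ← map_smul, ← map_add]
    exact M3CH.RISem.dg' B.C o E h.sit.alive Γ hΓ.bas (h.ptj j.2.1) (h.aok.cj j.1) (h.aok.Tj j.1)

theorem osgn (E : EOut) (hS : ISgn) : OSgn := by
  intro f la b β Q M r K B o X Y Y' h Γ hΓ
  have A := rowKa E (rowNg0 E) 3 f M B.C h.sit.ok
  obtain ⟨h1, h2, h3⟩ := hS _ _ _ _ _ _ _ _ _ _ h.sit h.av h.as Γ hΓ
  rw [← h.α_eq A] at h2 h3
  refine ⟨fun O => ?_, h2, fun e => ?_⟩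
  · rw [h.β_eq A]
    exact sum_nonneg fun j _ => mul_nonneg (cs_nonneg _ _) (h1 j)
  · obtain ⟨j, hj⟩ := h3 e
    refine ⟨h.cl.rp j.2.1, ?_⟩
    rw [h.β_eq A]
    refine sum_pos' (fun j _ => mul_nonneg (cs_nonneg _ _) (h1 j)) ⟨j, mem_univ _, ?_⟩
    exact mul_pos (zero_lt_one.trans_eq (if_pos rfl).symm) hj

theorem okvl (E : EOut) (hK : IKvl) (hN : ONul) : OKvl := by
  intro f la b β Q M r K B o X Y Y' h Γ hΓ hn
  have A := rowKa E (rowNg0 E) 3 f M B.C h.sit.ok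
  rcases hK _ _ _ _ _ _ _ _ _ _ h.sit h.av h.as Γ hΓ fun q =>
    hn ((hN _ _ _ _ _ _ _ _ _ _ _ _ _ h).2 Γ hΓ q) with ⟨j, hj⟩ | ⟨h1, h2⟩
  · exact Or.inl ⟨_, h.core A hj⟩
  · exact Or.inr ⟨h.β_zero A h1, h2⟩

theorem oz (E : EOut) (R : FRows) (hR : SR1) (hN : ONul) : OZ := by
  intro f la b β Q M r K B o X Y Y' h ht
  have A := rowKa E (rowNg0 E) 3 f M B.C h.sit.ok
  have ht' := B.zero ht
  obtain ⟨S, θ, h1, h2⟩ := R.cc _ _ _ _ _ _ _ _ _ _ h.sit h.av h.as ht'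
  refine ⟨⟨S, θ, h1, fun Γ hΓ s hs => ?_⟩, fun Γ O g1 g2 g3 g4 => ?_⟩
  · rw [h.α_eq A]
    exact h2 Γ hΓ s hs
  have g5 : ¬Null (B.C.sd la b o X Y').x (B.C.sd la b o X Y').S1 Γ := fun q =>
    g2 ((hN _ _ _ _ _ _ _ _ _ _ _ _ _ h).2 Γ g1 q)
  rcases R.kvl _ _ _ _ _ _ _ _ _ _ h.sit h.av h.as Γ g1 g5 with ⟨j, hj⟩ | ⟨k1, -⟩
  swap
  · exact absurd (g3.2.1.symm.trans (h.β_zero A k1 O)) one_ne_zero
  obtain rfl : O = h.cl.rp j.2.1 :=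
    by_contra fun e => one_ne_zero (g3.2.1.symm.trans ((h.core A hj).2.2 O e))
  have g6 : (B.C.sd la b o X Y').al j = 0 := (h.cl.ex la j.1).symm.trans g4
  have := R.z0 _ _ _ _ _ _ _ _ _ _ h.sit h.av h.as ht' Γ j g1 g5 hj g6 fun l g7 =>
    no_ncp R hR h.sit.hyp h.sit.ok ht' o h.sit.zero h.sit.alive j.1 j.2.1 g6
      (R.t1 _ _ _ _ _ _ _ _ _ _ h.sit h.av h.as Γ j l g1 hj g7)
  have e : (B.C.sd la b o X Y').S0 = (B.sd la b o X Y).S0 := by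
    simp only [Ch.sd, OC.sd, h.eq ht]
  rwa [e] at this

theorem OC.dead_of {f : Po 3} {la : ℚ} {b : Polynomial ℂ} {β : Fin 3 → PX 3 (KK 3)}
    {Q : PX 3 (KK 3)} {M : Mod 3} {r : M.J → M.J} (B : OC f M r) {o : M.J} (hR : SR1)
    (H : Hyp f la b β Q) (hM : M.OK f) (ho : M.ex la o = 0) (ht : B.t = 0) : B.Dead o := by
  refine ⟨-1, by rw [ht]; norm_num, fun s _ h2 m c hm hc g hg => ?_⟩
  by_contra h3
  exact H.nr (hR 3 f _ b β Q M o B.h s m c H.ne H.bs hM ho B.amp (ht ▸ h2) hm hc g hg h3)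

end Pool.Agent.MP_ee8c61_ag.N3.P3O
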