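import Pool.Agent.MP_5d9b3c_ag.O3O.Kit
import Pool.Agent.MP_ee8c61_ag.N3CH.RIAS

/-! Generators in a subfield of the semiample invariant divisors of a chamber. -/

namespace Pool.Agent.MP_ee8c61_ag.N3.P3O

open Pool.Agent.MP_ee8c61_ag.M3

set_option linter.unusedSectionVars false

variable [Base]

open M3 M3E M3K M3RESID M3F H59 Finset

namespace RAS

theorem shrink {N : ℕ} (W : Mod N) {c : W.J → ℤ} {T : Finset (KK N)} {S : Set (KK N)}
    (h : W.Gens c T) (h0 : 0 ∈ S) (hS : ∀ g ∈ W.H c, g ∈ Submodule.span ℂ (W.H c ∩ S)) :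
    ∃ T', W.Gens c T' ∧ ∀ g ∈ T', g ∈ S := by
  classical
  choose! s h1 h2 using fun g (hg : g ∈ T) =>
    Submodule.mem_span_finite_of_mem_span (hS g (h.1 g hg))
  have k : ∀ g ∈ insert 0 (T.biUnion s), g ∈ W.H c ∩ S := fun g hg => by
    rcases mem_insert.1 hg with rfl | hg
    · exact ⟨fun V _ b _ => by rw [zero_mul]; exact zero_mem _, h0⟩
    · obtain ⟨x, a, b⟩ := mem_biUnion.1 hg
      exact h1 x a b
  refine ⟨insert 0 (T.biUnion s), ⟨fun g hg => (k g hg).1, fun V hV => ?_⟩, fun g hg => (k g hg).2⟩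
  obtain ⟨g, hg, e⟩ := h.2 V hV
  by_cases hb : ∃ b, W.In b V
  swap
  · exact ⟨0, mem_insert_self _ _, fun b q => absurd ⟨b, q⟩ hb⟩
  obtain ⟨b, hb⟩ := hb
  have g0 : g ≠ 0 := left_ne_zero_of_mul (e b hb).1
  have m0 : W.mon b c ≠ 0 := right_ne_zero_of_mul (e b hb).1
  obtain ⟨x, hx, ux⟩ : ∃ x ∈ s g, Un V (x / g) := by
    by_contra! q
    have k2 : ∀ x ∈ Submodule.span ℂ (s g : Set (KK N)), x / g ∈ V ∧ ¬Un V (x / g) := by
      intro x hx
      induction hx using Submodule.span_induction with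
      | mem x hx =>
        refine ⟨?_, q x hx⟩
        have := mul_mem ((h1 g hg hx).1 V hV b hb) (e b hb).2.2
        rwa [← div_eq_mul_inv, mul_div_mul_right _ _ m0] at this
      | zero => rw [zero_div]; exact ⟨zero_mem _, not_un_zero⟩
      | add x y _ _ a b =>
        rw [add_div]
        exact ⟨add_mem a.1 b.1, not_un_add a.1 b.1 a.2 b.2⟩
      | smul a x _ b =>
        have a1 : algebraMap ℂ (KK N) a ∈ V := (ov_iff.1 hV).1 a
        rw [Algebra.smul_def, mul_div_assoc]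
        exact ⟨mul_mem a1 b.1, not_un_mul a1 b.1 b.2⟩
    refine (k2 g (h2 g hg)).2 ?_
    rw [div_self g0]
    exact un_one
  refine ⟨x, mem_insert_of_mem (mem_biUnion.2 ⟨g, hg, hx⟩), fun b' hb' => ?_⟩
  have := ux.mul (e b' hb')
  rwa [← mul_assoc, div_mul_cancel₀ _ g0] at this

variable {f : Po 3} {M : Mod 3} {r : M.J → M.J} {K : Subfield (KK 3)}

theorem common {C : Ch f M} (A : Ka C) (hK : Dsc M r K) {ι : Type} [Fintype ι]
    (d : ι → M.J → ℚ) (h : ∀ i, d i ∈ C.U) : ∃ m : ℕ, 0 < m ∧ ∀ i, ∃ w T, C.W.Gens w T ∧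
      C.W.q w = m • C.P (d i) ∧ (Iv r (d i) → ∀ g ∈ T, g ∈ K) := by
  choose μ c c' h1 h2 h3 using fun i => A.mob _ (h i)
  refine ⟨∏ i, μ i, prod_pos fun i _ => h1 i, fun i => ?_⟩
  obtain ⟨n, hn⟩ := dvd_prod_of_mem μ (mem_univ i)
  have b := A.mob_nsmul _ _ n (h3 i)
  have e : M.q (n • c i) = (∏ i, μ i) • d i := by
    rw [M.q_nsmul, h2, smul_smul, hn, mul_comm]
  have e' : C.W.q (n • c' i) = (∏ i, μ i) • C.P (d i) := by rw [b.eq, e, map_nsmul]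
  obtain ⟨T, hT⟩ := b.free
  by_cases q : Iv r (d i)
  swap
  · exact ⟨_, T, hT, e', fun k => absurd k q⟩
  have eH := b.H 1
  rw [one_smul, one_smul] at eH
  obtain ⟨T', a1, a2⟩ := shrink C.W (S := K) hT K.zero_mem
    (eH ▸ hK _ (Iv.of_q (e ▸ q.nsmul _)))
  exact ⟨_, T', a1, e', fun _ => a2⟩

theorem eps {C : Ch f M} {x : M.J → ℚ} (h : InG r C.U x) (u : M.J → M.J → ℚ)
    (hu : ∀ j, Iv r (u j)) : ∃ ε : ℚ, 0 < ε ∧ ∀ j, x + ε • u j ∈ C.U := by
  choose δ h1 h2 using fun j => h.small (hu j)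
  have h3 : 0 ≤ ∑ j, (δ j)⁻¹ := sum_nonneg fun j _ => (inv_pos.2 (h1 j)).le
  have h4 : 0 < ∑ j, (δ j)⁻¹ + 1 := by linarith
  refine ⟨(∑ j, (δ j)⁻¹ + 1)⁻¹, inv_pos.2 h4, fun j => h2 j _ (inv_pos.2 h4) ?_⟩
  have h5 : (δ j)⁻¹ ≤ ∑ j, (δ j)⁻¹ :=
    single_le_sum (f := fun j => (δ j)⁻¹) (fun j _ => (inv_pos.2 (h1 j)).le) (mem_univ j)
  exact inv_le_of_inv_le₀ (h1 j) (by linarith)

end RAS

open RAS in
theorem rowAS : OfAS := by
  intro hE f la M r K B o hM hC hK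
  have A := rowKa hE (rowNg0 hE) 3 f M B.C hM
  obtain ⟨s, hs, hi⟩ := B.inn
  obtain ⟨ε, e0, he⟩ := eps hi (cs r) hC.cs
  obtain ⟨s', hs', hi'⟩ := B.C.inn
  obtain ⟨ε', e0', he'⟩ := M3CH.RIAS.eps B.C hi' fun j => M.q (M.e j)
  have k : ∀ (t : ℚ) (u : M.J → ℚ), M.nu + t • B.C.h + u ∈ B.C.U → B.C.pt la o t + u ∈ B.C.U :=
    fun t u h => M3CH.RIAS.pt_eq B.C la o t u ▸ B.tr _ h _
  obtain ⟨d, d1, d2, d3, d4, d5, d6, d7⟩ : ∃ d : Option (Option M.J) ⊕ Option (Option M.J) →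
      M.J → ℚ, d (.inl none) = B.pt la o B.t ∧ d (.inl (some none)) = B.pt la o s ∧
      (∀ j, d (.inl (some (some j))) = B.pt la o s + ε • cs r j) ∧
      d (.inr none) = B.C.pt la o B.C.t ∧ d (.inr (some none)) = B.C.pt la o s' ∧
      (∀ j, d (.inr (some (some j))) = B.C.pt la o s' + ε' • M.q (M.e j)) ∧ ∀ i, d i ∈ B.C.U := by
    refine ⟨Sum.elim (fun i => i.elim (B.pt la o B.t) fun k => k.elim (B.pt la o s)
      fun j => B.pt la o s + ε • cs r j) fun i => i.elim (B.C.pt la o B.C.t) fun k =>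
        k.elim (B.C.pt la o s') fun j => B.C.pt la o s' + ε' • M.q (M.e j), rfl, rfl,
      fun _ => rfl, rfl, rfl, fun _ => rfl, ?_⟩
    rintro ((_ | _ | j) | (_ | _ | j))
    · exact add_zero (B.pt la o B.t) ▸ B.pt_mem (by rw [add_zero]; exact B.mem)
    · exact (B.pt_inn hi).mem
    · exact B.pt_mem (he j)
    · exact add_zero (B.C.pt la o B.C.t) ▸ k _ _ (by rw [add_zero]; exact B.C.mem)
    · exact add_zero (B.C.pt la o s') ▸ k _ _ (by
        rw [add_zero]; exact RKa.inn_mem B.C hi')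
    · exact k _ _ (RKa.inn_mem B.C (he' j))
  obtain ⟨m, m0, h⟩ := common A hK d d7
  choose w T h1 h2 h3 using h
  obtain ⟨i, i1, i2⟩ : ∃ i, d i = B.C.pt la o B.C.t ∧ (B.t = 0 → i = .inl none) := by
    by_cases q : B.t = 0
    · refine ⟨_, ?_, fun _ => rfl⟩
      rw [d1, B.zero q, q, OC.pt, Ch.pt, zero_smul, zero_smul]
    · exact ⟨_, d4, fun e => absurd e q⟩
  exact ⟨⟨s, ε, m, w (.inl none), w (.inl (some none)), fun j => w (.inl (some (some j))),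
      T (.inl none), T (.inl (some none)), fun j => T (.inl (some (some j)))⟩,
    ⟨s', ε', m, w i, w (.inr (some none)), fun j => w (.inr (some (some j))), T i,
      T (.inr (some none)), fun j => T (.inr (some (some j)))⟩,
    ⟨hs, hi, e0, m0, d1 ▸ h2 _, d2 ▸ h2 _, fun j => d3 j ▸ h2 _, h1 _, h1 _, fun _ => h1 _,
      h3 _ (d1 ▸ B.iv_pt hC _), h3 _ (d2 ▸ B.iv_pt hC _),
      fun j => h3 _ (d3 j ▸ (B.iv_pt hC _).add ((hC.cs j).smul _))⟩,
    ⟨hs', hi', e0', he', m0, i1 ▸ h2 _, d5 ▸ h2 _, fun j => d6 j ▸ h2 _, h1 _, h1 _,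
      fun _ => h1 _⟩, fun q => congrArg T (i2 q)⟩

end Pool.Agent.MP_ee8c61_ag.N3.P3O
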