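import Pool.Agent.MP_5d9b3c_ag.O3O.Kit
import Pool.Agent.MP_ee8c61_ag.N3I44.Rows

/-! Bigness inside a chamber, for an invariant segment. -/

namespace Pool.Agent.MP_ee8c61_ag.N3.P3O

open Pool.Agent.MP_ee8c61_ag.M3

set_option linter.unusedSectionVars false

variable [Base]

open M3 M3E M3K M3RESID M3F H59 Finset

namespace RBig

variable {f : Po 3}

theorem big_q {W : Mod 3} (B : Bas f W) (A : Aq W) {o : W.J} {c : W.J → ℤ} {n : ℕ}
    {S a E : W.J → ℚ} (hS : W.SemiQ S) (ha : W.AmpQ a) (hE : 0 ≤ E) (h0 : E o = 0)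
    (e : n • W.q c = S + a + E) : Big W o c := by
  obtain ⟨μ, F, μ0, F1, F2⟩ := hS
  obtain ⟨ν, w, ν0, w1, w2⟩ := ha
  have key : ∀ i, ((((μ * ν * n) • c - ν • F - μ • w) i : ℤ) : ℚ) = μ * ν * E i := fun i => by
    have h1 := congrFun e i
    have h2 := congrFun F2 i
    have h3 := congrFun w2 i
    simp only [Mod.q_apply, Pi.smul_apply, Pi.add_apply, Pi.sub_apply, nsmul_eq_mul, Pi.mul_apply,
      Pi.natCast_apply] at h1 h2 h3 ⊢
    push_cast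
    linear_combination (μ * ν : ℚ) * h1 - ν * h2 - μ * h3
  refine ⟨μ * ν * n, ν • F, μ • w, (μ * ν * n) • c - ν • F - μ • w, B.free_nsmul _ _ F1,
    A.nsmul w μ μ0 w1, fun i => ?_, ?_, by abel⟩
  · have h1 : (0 : ℚ) ≤ E i := hE i
    have h2 : (0 : ℚ) ≤ ((((μ * ν * n) • c - ν • F - μ • w) i : ℤ) : ℚ) := by
      rw [key]
      positivity
    exact_mod_cast h2
  · have h2 := key o
    rw [h0, mul_zero] at h2
    exact_mod_cast h2

variable {M : Mod 3} {r : M.J → M.J} {o : M.J} {la : ℚ} {b : Polynomial ℂ}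
  {β : Fin 3 → PX 3 (KK 3)} {Q : PX 3 (KK 3)} {K : Subfield (KK 3)} {B : OC f M r}
  {X : Ch.AV (M := M) o} {Y Y' : B.C.AS o}

theorem big_c1 (hE : EOut) (A : Ka B.C) (h : St f la b β Q M r K B o X Y Y') :
    Big B.C.W (B.C.D.e o) Y.c1 := by
  have hM := h.sit.ok
  have BW := hE.bas 3 f B.C.W B.C.ok
  have AW := hE.aq 3 f B.C.W B.C.ok
  have AM := hE.aq 3 f M hM
  have D := hE.dc 3 f B.C.W M B.C.D B.C.ok hM
  obtain ⟨n, hn⟩ := InG.far (B.pt_inn (la := la) (o := o) h.aok.inn) B.iv.neg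
  obtain ⟨Ξ, x1, x2, ε, ε0, x3⟩ := hE.a4 3 f B.C.W M B.C.D B.C.ok hM B.h B.amp
  have m0 : (0 : ℚ) < Y.m := Nat.cast_pos.2 h.aok.m
  have g := A.ge _ (AM.semi _ B.amp)
  refine big_q BW AW (n := n) (AW.smul' _ _ m0.le (A.semi _ (hn n le_rfl)))
    (AW.smul _ _ m0 (x3 ε ε0 le_rfl))
    (E := (Y.m : ℚ) • (ε • B.C.W.q Ξ + (B.C.P B.h - B.C.D.pb B.h))) (fun i => ?_) ?_ ?_
  · have h1 : (0 : ℚ) ≤ Ξ i := by exact_mod_cast x1 i
    have h2 := sub_nonneg.2 (g i)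
    simp only [Pi.smul_apply, Pi.add_apply, Pi.sub_apply, Mod.q_apply, smul_eq_mul, Pi.zero_apply]
    positivity
  · have h1 : Ξ (B.C.D.e o) = 0 := congrFun x2 o
    simp only [Pi.smul_apply, Pi.add_apply, Pi.sub_apply, Mod.q_apply, smul_eq_mul]
    rw [h1, h.sit.alive, D.pb_e]
    simp
  · rw [h.aok.c1, map_add, map_nsmul, map_neg]
    funext i
    simp only [Pi.smul_apply, Pi.add_apply, Pi.sub_apply, Pi.neg_apply]
    simp only [nsmul_eq_mul, smul_eq_mul]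
    ring

end RBig

open M3I44 in
theorem rowBig : OfBig := by
  intro hE hK f la b β Q M r K B o X Y Y' h Z hZ
  have A := hK.ka 3 f M B.C h.sit.ok
  have BW := hE.bas 3 f B.C.W B.C.ok
  have hc := h.c1
  have hb := RBig.big_c1 hE A h
  have hY := h.aok
  obtain ⟨s, s1, s2⟩ := hY.T1.2 _ (BW.ov_v (B.C.D.e o))
  have s0 := gen_ne B.C.ok BW (po B.C o) hc (BW.ov_v _) (po B.C o ▸ le_rfl) s2
  have kill : ∀ u, Bs B.C.W ⊤ Y.c1 s u → Z ((M.v o).pl.π u) = 0 := fun u hu =>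
    (cl_of B.C.ok BW (po B.C o) hc hY.T1 s1 s0 fun V h1 h2 => hu V h1 le_top h2).kill _
      (sub_RF s1) hZ
  ext y
  obtain ⟨g, g1, rfl⟩ := (M.v o).pl.surj y
  obtain ⟨u, u1, u2, u3⟩ := hK.bir 3 f B.C.W B.C.ok _ _ s hb (hY.T1.1 s s1) s2 g (po B.C o ▸ g1)
  rw [← po B.C o] at u2
  have u4 := (DV.un_O _).1 u2
  have k1 := kill _ u3
  rw [(M.v o).pl.mul u u2.2.1 g g1, Derivation.leibniz, kill _ u1, smul_zero, add_zero,
    smul_eq_mul] at k1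
  exact (mul_eq_zero.1 k1).resolve_left (ne_of_un u4.1 u4.2)

end Pool.Agent.MP_ee8c61_ag.N3.P3O
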