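import Pool.Agent.MP_5d9b3c_ag.O3O.Kit
import Pool.Agent.MP_ee8c61_ag.N3CH.Asm
import Pool.Agent.MP_ee8c61_ag.N3K.RKa
import Pool.Agent.MP_ee8c61_ag.N3K.RNg0

/-! The last chamber along an invariant segment in which a divisor is alive. -/

namespace Pool.Agent.MP_ee8c61_ag.N3.P3O

open Pool.Agent.MP_ee8c61_ag.M3 Pool.Agent.MP_ee8c61_ag.M3CH

set_option linter.unusedSectionVars false

variable [Base]

open M3 M3E M3K M3CH M3FG Finset

namespace RCH

theorem reg (hBOX : SBOX) (hA : SAq) {f : Po 3} {M : Mod 3} (hM : M.OK f) {w : M.J → ℤ}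
    (hw : M.Amp w) : ∃ (Γ : Gn M) (T ε γ : ℚ) (Wl : Finset (Fm M.J)), 0 < T ∧ 0 < ε ∧ 0 < γ ∧
    Arr Wl (M.q M.aa) ∧ ∀ h : M.J → ℚ, (∀ j, |h j - M.q w j| < γ) → M.AmpQ h ∧
      M.AmpQ (nu M + T • h) ∧ ∀ t : ℚ, -ε ≤ t → t ≤ T → Off Wl (nu M + t • h) →
        ∀ c, M.q c ∈ Cell Wl (nu M + t • h) → Γ.Reg c := by
  classical
  have aM := hA 3 f M hM
  have hO := rowOPN hA
  have hH := aM.of_amp w hw
  obtain ⟨ε0, h0, h1⟩ := aM.opn (M.q w) (nu M) hH
  obtain ⟨γ1, g1, k1⟩ := hO 3 f M hM _ hH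
  obtain ⟨γ2, g2, k2⟩ := hO 3 f M hM _ (h1 ε0 h0.le le_rfl)
  obtain ⟨ε, γ3, σ, n, hε, g3, hσ, k3⟩ := rowCOV M.J (M.q M.aa) (M.q w) ε0⁻¹ fun j => by
    have := hM.pos j
    simpa [Mod.aa] using this
  let A : Fin n → M.J → ℚ := fun s => ((((s : ℕ) : ℚ) + 1) * σ) • M.q w
  have hAs : ∀ s, M.AmpQ (A s) := fun s => aM.smul _ _ (by positivity) hH
  choose G hG1 hG2 using fun s => hBOX f M hM (A s) (hAs s)
  choose Wl hW1 hW2 using fun s =>
    rowARR M.J (Option M.J) (RREG.vx (M.q M.kk + A s)) (M.q M.aa)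
  have hG : ∀ p ∈ univ.biUnion G, p.2 ∈ M.H p.1 := fun p hp => by
    obtain ⟨s, _, hs⟩ := mem_biUnion.1 hp
    exact hG1 s p hs
  refine ⟨RREG.gn _ hG, ε0⁻¹, ε, min γ1 (min γ2 γ3), univ.biUnion Wl, inv_pos.2 h0, hε,
    lt_min g1 (lt_min g2 g3), fun y hy => ?_, fun h hh => ⟨k1 h fun j => ?_, ?_, ?_⟩⟩
  · obtain ⟨s, _, hs⟩ := mem_biUnion.1 hy
    exact hW1 s y hs
  · exact (hh j).trans_le (min_le_left _ _)
  · have h2 := aM.smul _ _ (inv_pos.2 h0) (k2 (h + ε0 • nu M) fun j => by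
      rw [Pi.add_apply, Pi.add_apply, add_sub_add_right_eq_sub]
      exact (hh j).trans_le ((min_le_right _ _).trans (min_le_left _ _)))
    rwa [smul_add, smul_smul, inv_mul_cancel₀ h0.ne', one_smul, add_comm] at h2
  · intro t t1 t2 ho c hc
    obtain ⟨s, r, u, u0, u1, e⟩ := k3 h
      (fun j => (hh j).trans_le ((min_le_right _ _).trans (min_le_right _ _))) t t1 t2
    have hsub : Wl s ⊆ univ.biUnion Wl := subset_biUnion_of_mem Wl (mem_univ s)
    obtain ⟨_, _, _, _, _, h2⟩ := hW2 s 0 0 (fun _ _ _ _ => by simp) _ (ho.mono hsub) (by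
      refine ⟨fun i => i.elim (1 - 2 * ∑ j, u j) fun j => 2 * u j, r, fun i => ?_, ?_⟩
      · rcases i with _ | j
        · change 0 ≤ 1 - 2 * ∑ j, u j
          linarith
        · exact mul_nonneg zero_le_two (u0 j)
      · funext j
        rw [e, Pi.add_apply _ (r • M.q M.aa), RREG.sum_vx, Fintype.sum_option]
        simp only [Option.elim, ← Finset.mul_sum, Pi.add_apply, Pi.sub_apply, nu, A, Mod.q_apply,
          Mod.kk, Int.cast_natCast]
        ring)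
    obtain ⟨α, τ, a0, _, h3⟩ := h2 _ (Cell.mono hsub _ hc)
    refine RREG.reg _ hG c fun g hg => ?_
    obtain ⟨m, hm, h4⟩ := hG2 s c (∑ i, α i) τ (fun j => ∑ i, α i - α (some j) / 2)
      (sum_nonneg fun i _ => a0 i) (fun j => by
        have h5 : α (some j) ≤ ∑ i, α i := single_le_sum (fun i _ => a0 i) (mem_univ _)
        have h6 : 0 ≤ α (some j) := a0 _
        constructor <;> linarith) (by
        funext j
        rw [h3, Pi.add_apply _ (τ • M.q M.aa), RREG.sum_vx]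
        simp only [Pi.add_apply, Pi.smul_apply, smul_eq_mul]
        ring) g hg
    exact ⟨m, hm, h4.mono (coe_subset.2 (subset_biUnion_of_mem G (mem_univ s)))⟩

/-- A small perturbation off the arrangement that keeps the signs. -/
theorem pert {J : Type} [Fintype J] {Wl : Finset (Fm J)} (hW : ∀ w ∈ Wl, w ≠ 0) (y : J → ℚ)
    {γ : ℚ} (hγ : 0 < γ) : ∃ u : J → ℚ, (∀ j, |u j| < γ) ∧ Off Wl (y + u) ∧
      ∀ w ∈ Wl, w y ≠ 0 → 0 < w (y + u) * w y := by
  classical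
  obtain ⟨u, h1, h2⟩ := RGEN.avoid Wl 0 hγ hW
  obtain ⟨s, h3, h4⟩ := ARR.small (Wl.filter fun w => w y ≠ 0) (α := fun w => w y * w y / 2)
    (fun w => |w y * w u|) fun w hw => half_pos (mul_self_pos.2 (mem_filter.1 hw).2)
  have h5 : 0 < min s 1 := lt_min h3 one_pos
  have key : ∀ w ∈ Wl, w y ≠ 0 → 0 < w (y + min s 1 • u) * w y := fun w hw e => by
    have k1 := h4 w (mem_filter.2 ⟨hw, e⟩)
    have k2 := mul_self_pos.2 e
    have k3 := mul_le_mul_of_nonneg_right (min_le_left s 1) (abs_nonneg (w y * w u))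
    have k4 := mul_le_mul_of_nonneg_left (neg_abs_le (w y * w u)) h5.le
    rw [map_add, map_smul, smul_eq_mul]
    nlinarith
  refine ⟨min s 1 • u, fun j => ?_, fun w hw => ?_, key⟩
  · have k1 := h1 j
    rw [Pi.zero_apply, sub_zero] at k1
    rw [Pi.smul_apply, smul_eq_mul, abs_mul, abs_of_pos h5]
    exact (mul_le_of_le_one_left (abs_nonneg _) (min_le_right _ _)).trans_lt k1
  · by_cases e : w y = 0
    · rw [map_add, map_smul, smul_eq_mul, e, zero_add]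
      exact mul_ne_zero h5.ne' (h2 w hw)
    · exact left_ne_zero_of_mul (key w hw e).ne'

theorem back {J : Type} {Wl : Finset (Fm J)} {x : J → ℚ} (hx : Off Wl x) (u : J → ℚ) {s : ℚ}
    (hs : 0 < s) : ∃ δ : ℚ, 0 < δ ∧ δ ≤ s ∧ x + δ • u ∈ Cell Wl x := by
  obtain ⟨δ, h1, h2⟩ := Cell.near hx (Cell.self Wl x) u fun w hw e => absurd e (hx w hw)
  refine ⟨min δ s, lt_min h1 hs, min_le_right _ _, fun w hw => ?_⟩
  have k1 := h2 w hw
  have k2 := mul_self_nonneg (w x)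
  have k3 : 0 < min δ s := lt_min h1 hs
  have k4 := min_le_left δ s
  rw [map_add, map_smul, smul_eq_mul] at k1 ⊢
  rcases le_total 0 (w x * w u) with e | e <;> nlinarith

theorem alive (hE : EOut) {f : Po 3} {M : Mod 3} (hM : M.OK f) {r : M.J → M.J} {o : M.J}
    (h : Cl M r o) (C : Ch f M) {y : M.J → ℚ} (hy : InG r C.U y) (hl : Live M o y) :
    C.Alive o := by
  have A := rowKa hE (rowNg0 hE) 3 f M C hM
  have D := hE.dc 3 f C.W M C.D C.ok hM
  by_contra hn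
  obtain ⟨δ, h1, h2⟩ := hy _ h.e.neg
  have h3 := A.le _ h2 (C.D.e o)
  rw [D.pb_e, map_add, map_smul, map_neg, A.dead o hn] at h3
  obtain ⟨m, c, a1, a2, g, a3, a4⟩ := hl
  have h4 := A.exc c g a3 (fun e => a4 (Or.inl e)) (C.D.e o)
  have h5 : (M.v o).v g ≤ -c o := by
    by_contra e
    exact a4 (Or.inr (by omega))
  have h6 : (((M.v o).v g : ℤ) : ℚ) ≤ -(c o : ℚ) := by exact_mod_cast h5
  have h7 := congrFun a2 o
  rw [C.D.v, a2, map_nsmul] at h4
  have h8 : (0 : ℚ) < m := Nat.cast_pos.2 a1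
  simp only [Mod.q_apply, Mod.e_apply, Pi.smul_apply, Pi.add_apply, Pi.neg_apply, Pi.zero_apply,
    nsmul_eq_mul, smul_eq_mul, if_true, Int.cast_one] at h3 h4 h7
  nlinarith

end RCH

theorem rowCH : OfCH := by
  classical
  intro hE hX f M r o hM hc ⟨w0, hw0, hi0⟩
  obtain ⟨Γ, T, ε, γ, W1, hT, hε, hγ, h1, hh⟩ := RCH.reg hX hE.aq hM hw0
  obtain ⟨W0, h0, hW⟩ := rowMOD rowCELL hE.bas hE.h hE.dc hE.b1 (rowVLP rowARR hE.bas) 3 f M hM Γ
  obtain ⟨W, D, n, P, hWf, hn, hP⟩ := hW (W0 ∪ W1) subset_union_left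
  have ha : Arr (W0 ∪ W1) (M.q M.aa) := fun w hw => (mem_union.1 hw).elim (h0 w) (h1 w)
  have hsub : W1 ⊆ W0 ∪ W1 := subset_union_right
  generalize W0 ∪ W1 = Wl at hP ha hsub
  let i : (M.J → ℚ) →ₗ[ℚ] M.J → ℚ := LinearMap.funLeft ℚ ℚ r
  have i1 : ∀ d, Iv r d → i d = d := fun d hd => funext hd
  have i2 : ∀ d, Iv r (i d) := fun d j => congrArg d (hc.idem j)
  let W2 : Finset (Fm M.J) := (Wl.image fun w => w ∘ₗ i).filter (· ≠ 0)
  have i3 : ∀ w ∈ W2, ∀ d, w (i d) = w d := fun w hw d => by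
    obtain ⟨w', -, rfl⟩ := mem_image.1 (mem_filter.1 hw).1
    exact congrArg w' (i1 _ (i2 d))
  obtain ⟨h', g1, g2, g3⟩ := rowGEN M.J W2 (nu M) (M.q w0) (γ / 2) (half_pos hγ)
    fun w hw => (mem_filter.1 hw).2
  have iν : Iv r (nu M) := hc.nu
  have i4 : ∀ w ∈ W2, ∀ t : ℚ, w (nu M + t • i h') = w (nu M + t • h') := fun w hw t => by
    rw [map_add, map_add, map_smul, map_smul, i3 w hw]
  have a4 : ∀ w ∈ W2, w (i h') ≠ 0 := fun w hw => (i3 w hw h').symm ▸ g2 w hw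
  have a5 : ∀ w ∈ W2, ∀ w' ∈ W2, ∀ t : ℚ, t ≠ 0 → w (nu M + t • i h') = 0 →
      w' (nu M + t • i h') = 0 → ∃ s : ℚ, w' = s • w := fun w hw w' hw' t ht e e' =>
    g3 w hw w' hw' t ht (i4 w hw t ▸ e) (i4 w' hw' t ▸ e')
  have a6 : ∀ j, |i h' j - M.q w0 j| < γ / 2 := fun j => hi0.q j ▸ g1 (r j)
  have ih := i2 h'
  generalize i h' = h at a4 a5 a6 ih
  obtain ⟨a1, a2, -⟩ := hh h fun j => (a6 j).trans (half_lt_self hγ)
  have BM := hE.bas 3 f M hM
  have AM := hE.aq 3 f M hM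
  obtain ⟨δ, hδ, a7⟩ := AM.opn _ (-h) a2
  obtain ⟨t, s, b1, b2, b3, b4, b5, b6, b7⟩ := seg (nu M) h a4 hT hδ
    (fun s => Live M o (nu M + s • h)) fun s k1 k2 => by
      have := a7 (T - s) (by linarith) (by linarith)
      rw [show nu M + T • h + (T - s) • -h = nu M + s • h by module] at this
      exact live_of_semi BM o (AM.semi _ this)
  have hs : 0 < s := b1.trans_lt b2
  obtain ⟨u, u1, u2, u3⟩ := RCH.pert (fun w hw => (ha w hw).1) (nu M + s • h)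
    (mul_pos hs (half_pos hγ))
  have ex : nu M + s • h + u = nu M + s • (h + s⁻¹ • u) := by
    rw [smul_add, smul_smul, mul_inv_cancel₀ hs.ne', one_smul, add_assoc]
  have a8 : ∀ j, |(h + s⁻¹ • u) j - M.q w0 j| < γ := fun j => by
    have k1 : |s⁻¹ * u j| < γ / 2 := by
      rw [abs_mul, abs_of_pos (inv_pos.2 hs), inv_mul_lt_iff₀ hs]
      exact u1 j
    have k2 := abs_add_le (h j - M.q w0 j) (s⁻¹ * u j)
    rw [Pi.add_apply, Pi.smul_apply, smul_eq_mul, add_sub_right_comm]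
    linarith [a6 j]
  rw [ex] at u2 u3
  generalize h + s⁻¹ • u = h2 at u2 u3 a8
  obtain ⟨c1, -, c2⟩ := hh h2 a8
  have hm := hP _ u2 fun c hc =>
    c2 s (by linarith) b3 (u2.mono hsub) c (Cell.mono hsub _ hc)
  have ix : ∀ t : ℚ, Iv r (nu M + t • h) := fun t => iν.add (ih.smul t)
  have sub : ∀ d, Iv r d → d ∈ Cell W2 (nu M + s • h) → d ∈ Cell Wl (nu M + s • h2) :=
    fun d hd k w hw => by
      by_cases e : w ∘ₗ i = 0
      · have k1 : w (i d) = 0 := LinearMap.congr_fun e d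
        rw [← i1 d hd, k1, mul_zero]
      have k0 : w ∘ₗ i ∈ W2 := mem_filter.2 ⟨mem_image_of_mem _ hw, e⟩
      have k1 : 0 ≤ w (i (nu M + s • h)) * w (i d) := k _ k0
      have k2 : w (i (nu M + s • h)) ≠ 0 := b5 _ k0
      rw [i1 _ (ix s)] at k1 k2
      rw [i1 d hd] at k1
      have k3 := mul_nonneg (u3 w hw k2).le k1
      refine nonneg_of_mul_nonneg_left (b := w (nu M + s • h) * w (nu M + s • h)) ?_
        (mul_self_pos.2 k2)
      linarith
  have hin : InG r (Cell Wl (nu M + s • h2)) (nu M + s • h) := fun v hv =>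
    (Cell.near b5 (Cell.self _ _) v fun w hw e => absurd e (b5 w hw)).imp fun z k =>
      ⟨k.1, sub _ ((ix s).add (hv.smul z)) k.2⟩
  obtain ⟨t2, d1, d2, d3, d4⟩ : ∃ t2 : ℚ, 0 ≤ t2 ∧ t2 < s ∧
      nu M + t2 • h2 ∈ Cell Wl (nu M + s • h2) ∧ (t = 0 → t2 = 0) := by
    by_cases e : t = 0
    · have k := sub _ (ix t) b6
      rw [e, zero_smul] at k
      exact ⟨0, le_rfl, hs, by rwa [zero_smul], fun _ => rfl⟩
    · obtain ⟨z, k1, k2, k3⟩ := RCH.back u2 (-h2) hs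
      rw [show nu M + s • h2 + z • -h2 = nu M + (s - z) • h2 by module] at k3
      exact ⟨s - z, by linarith, by linarith, k3, fun k => absurd k e⟩
  let C : Ch f M := ⟨W, D, Cell Wl (nu M + s • h2), P (Cell Wl (nu M + s • h2)), h2, t2, hWf,
    fun _ k _ k' => Cell.add k k', fun _ k _ k' => Cell.smul k k'.le, fun _ k => hm.mult hn k, c1,
    d1, d3, s, d2, fun v => Cell.near u2 (Cell.self _ _) v fun w hw e => absurd e (u2 w hw)⟩
  refine ⟨⟨C, h, t, ih, a1, b1, sub _ (ix t) b6, ⟨s, b2, hin⟩, fun d hd z w hw => ?_, d4⟩,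
    RCH.alive hE hM hc C hin b4, ?_⟩
  · rw [map_add w d, map_smul w z, (ha w hw).2, smul_zero, add_zero]
    exact hd w hw
  rcases b7 with e | ⟨e1, ⟨w, e2, e3⟩, s0, e4, e5⟩
  · exact Or.inr e
  refine Or.inl ⟨e1, ⟨w, fun v hv hu => ?_⟩, s0, e4, fun s' k1 k2 m c k3 k4 g k5 => ?_⟩
  · exact (Cell.near b5 b6 v fun w' k1 k2 => by
      obtain ⟨z, rfl⟩ := a5 w e2 w' k1 t e1.ne' e3 k2
      simp [hu]).imp fun z k => ⟨k.1, sub _ ((ix t).add (hv.smul z)) k.2⟩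
  · by_contra k6
    exact e5 s' k1 k2 ⟨m, c, k3, k4, g, k5, k6⟩

end Pool.Agent.MP_ee8c61_ag.N3.P3O
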