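import Pool.Agent.MP_5d9b3c_ag.O3O.Kit
import Pool.Agent.MP_ee8c61_ag.N3I44.Rows
import Pool.Agent.MP_ee8c61_ag.N3K.RKa
import Pool.Agent.MP_ee8c61_ag.N3K.RNg0

/-! Curves contracted by a dominating divisor of the chamber are contracted by the other one. -/

namespace Pool.Agent.MP_ee8c61_ag.N3.P3O

open Pool.Agent.MP_ee8c61_ag.M3

set_option linter.unusedSectionVars false

variable [Base]

open M3 M3E M3K M3RESID M3F H59 Finset M3I44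

variable {f : Po 3} {M : Mod 3} {C : Ch f M} {o : M.J}

theorem null_dom (hE : EOut) (K : Ka C) {d d' : M.J → ℚ} {n : ℕ} (hn : n • d + -d' ∈ C.U)
    {m m' : ℕ} (hm : 0 < m) (hm' : 0 < m') {c c' : C.W.J → ℤ} (e : C.W.q c = m • C.P d)
    (e' : C.W.q c' = m' • C.P d') (hc : c (C.D.e o) = 0) (hc' : c' (C.D.e o) = 0)
    {T T' : Finset (KK 3)} (hT : C.W.Gens c T) (hT' : C.W.Gens c' T') {S S' : Finset (M.v o).kf}
    (hS : ∀ y, y ∈ S ↔ ∃ s ∈ T, (M.v o).pl.π s = y)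
    (hS' : ∀ y, y ∈ S' ↔ ∃ s ∈ T', (M.v o).pl.π s = y) {Γ : DV (M.v o).kf}
    (h1 : ∀ l, (M.v o).pl.π (xx 3 l) ∈ Γ.F 0)
    (hN : M3.Null (fun l => (M.v o).pl.π (xx 3 l)) S Γ) :
    M3.Null (fun l => (M.v o).pl.π (xx 3 l)) S' Γ := by
  have B := hE.bas 3 f C.W C.ok
  have hP := po C o
  have hV : Ov (liftV (M.v o).pl Γ.O) := ov_liftV (hP ▸ B.ov_v _) Γ.cst_mem h1
  obtain ⟨μ, w, μ0, w1, w2⟩ := K.semi _ (C.smul _ hn ((m * m' : ℕ) : ℚ)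
    (Nat.cast_pos.2 (Nat.mul_pos hm hm')))
  obtain ⟨ν, hν⟩ := Nat.exists_eq_succ_of_ne_zero (Nat.mul_pos μ0 hm).ne'
  have hν' : (ν : ℚ) = μ * m - 1 := by
    rw [eq_sub_iff_add_eq]
    exact_mod_cast hν.symm
  have ew : w + ν • c' + c' = (μ * m' * n) • c := C.W.q_inj (by
    rw [C.W.q_add, C.W.q_add, C.W.q_nsmul, C.W.q_nsmul, w2, e, e', map_smul, map_add, map_neg,
      map_nsmul]
    funext i
    simp only [Pi.smul_apply, Pi.add_apply, Pi.neg_apply]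
    simp only [nsmul_eq_mul, smul_eq_mul]
    rw [hν']
    push_cast
    ring)
  refine ⟨hN.1, fun y hy y' hy' => ?_⟩
  obtain ⟨σ, σ1, rfl⟩ := (hS' y).1 hy.1
  obtain ⟨σ', σ2, rfl⟩ := (hS' y').1 hy'
  have σ3 := gen_liftV C.ok B hP hc' hT' σ1 hy.2.1 hV fun s hs => hy.2.2 _ ((hS' _).2 ⟨s, hs, rfl⟩)
  obtain ⟨Tw, hw⟩ := w1
  obtain ⟨τ, τ1, τ2⟩ := hw.2 _ hV
  have m1 : ∀ u ∈ T', τ * σ ^ ν * u ∈ C.W.H ((μ * m' * n) • c) := fun u hu V a =>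
    ew ▸ B.oc_mul V _ _ _ _ (B.oc_mul V _ _ _ _ (hw.1 τ τ1 V a)
      (B.oc_pow V _ _ ν (hT'.1 σ σ1 V a))) (hT'.1 u hu V a)
  have m2 := B.gen_mul _ _ _ _ _ τ2 (B.gen_pow _ _ _ ν σ3)
  have := cn_ratio C.ok B hP hc hT hS h1 hN _ (m1 σ σ1) (m1 σ' σ2) (ew ▸ B.gen_mul _ _ _ _ _ m2 σ3)
  obtain ⟨b, hb⟩ := C.ok.cov _ hV
  rw [mul_div_mul_left _ _ (left_ne_zero_of_mul (m2 b hb).1), (pl_div
    (sec_mem B hP hc' (hT'.1 σ' σ2)) (sec_mem B hP hc' (hT'.1 σ σ1)) hy.2.1).2] at this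
  exact this.not

theorem rowNul : OfNul := by
  classical
  intro hE f la b β Q M r K B o X Y Y' h
  have A : Ka B.C := rowKa hE (rowNg0 hE) 3 f M B.C h.sit.ok
  have hi := B.pt_inn (la := la) (o := o) h.aok.inn
  refine ⟨fun Γ hΓ hN => ⟨?_, fun j => ?_⟩, fun Γ hΓ hN => ?_⟩
  · obtain ⟨n, hn⟩ := hi.far (B.iv_pt (la := la) h.cl B.t).neg
    exact null_dom hE A (hn n le_rfl) h.aok.m h.aok.m h.aok.c1 h.aok.c0 h.c1 h.c0 h.aok.T1 h.aok.T0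
      (fun _ => mem_image) (fun _ => mem_image) hΓ.bas hN
  · obtain ⟨n, hn⟩ := hi.far ((B.iv_pt (la := la) h.cl Y.t1).add ((h.cl.cs j.1).smul Y.ε)).neg
    exact null_dom hE A (hn n le_rfl) h.aok.m h.aok.m h.aok.c1 (h.aok.cj j.1) h.c1 (h.cj j.2.1)
      h.aok.T1 (h.aok.Tj j.1) (fun _ => mem_image) (fun _ => mem_image) hΓ.bas hN
  · obtain ⟨n, hn⟩ := A.far _ h.as.inn (-B.pt la o Y.t1)
    have h1 := B.tr _ (hn n le_rfl).2 (-(n * (la + Y'.t1 * (B.C.h o / M.a o))))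
    have h2 : n • B.C.pt la o Y'.t1 + -B.pt la o Y.t1 ∈ B.C.U := by
      rwa [M3I44.pt_eq, smul_sub, sub_add_eq_add_sub, sub_eq_add_neg,
        ← Nat.cast_smul_eq_nsmul ℚ n (_ • M.q M.aa), smul_smul, ← neg_smul]
    exact null_dom hE A h2 h.as.m h.aok.m h.as.c1 h.aok.c1
      (co_zero h.sit.alive h.as.c1 (M3I44.pt_o h.sit.ok h.sit.zero _)) h.c1 h.as.T1 h.aok.T1
      (fun _ => mem_image) (fun _ => mem_image) hΓ.bas hN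

end Pool.Agent.MP_ee8c61_ag.N3.P3O
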