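import Pool.Agent.MP_5d9b3c_ag.O3O.Kit
import Pool.Agent.MP_ee8c61_ag.N3K.RWall
import Pool.Agent.MP_ee8c61_ag.N3I44.Rows

/-! On a dead divisor the linear system at the wall is small. -/

namespace Pool.Agent.MP_ee8c61_ag.N3.P3O

open Pool.Agent.MP_ee8c61_ag.M3

set_option linter.unusedSectionVars false

variable [Base]

open M3 M3E M3K M3RESID M3F H59 Finset

noncomputable section

namespace RSmall

variable {f : Po 3} {M : Mod 3} {r : M.J → M.J} {B : OC f M r} {o : M.J} {la : ℚ}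

open RWall in
/-- On a dead divisor two ratios of sections are dependent. -/
theorem wall (hE : EOut) (hU : SUl) (hT : STr4) (hN : SNg) (K : Ka B.C) (hM : M.OK f)
    (hA : B.C.Alive o) (hD : B.Dead o) {m : ℕ} {c : M.J → ℤ} {c' : B.C.W.J → ℤ}
    (hc : M.q c = m • (M.nu + B.t • B.h)) (hm : 0 < m) (hb : Mob B.C c c') {s : KK 3}
    (hs : s ∈ M.H c) (hg : M.Gen (M.v o).O c s) (τ : Fin 2 → KK 3) (h0 : Bs B.C.W ⊤ c' s (τ 0))
    (h1 : Bs B.C.W ⊤ c' s (τ 1)) :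
    ∃ Φ : MvPolynomial (Fin 2) ℂ, Φ ≠ 0 ∧ MvPolynomial.aeval τ Φ ∈ (M.v o).F 1 := by
  by_contra hn
  push Not at hn
  have bM := hE.bas 3 f M hM
  have bW := hE.bas 3 f B.C.W B.C.ok
  have dc := hE.dc 3 f B.C.W M B.C.D B.C.ok hM
  have e1 : c' (B.C.D.e o) = c o :=
    Int.cast_injective (α := ℚ) ((congrFun hb.eq _).trans (hA (M.q c)))
  have e2 : ∀ j, c' (B.C.D.e j) ≤ c j := fun j => by
    have h2 := K.le (M.q c) (by
      rw [hc, ← Nat.cast_smul_eq_nsmul ℚ]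
      exact B.C.smul _ B.mem _ (Nat.cast_pos.2 hm)) (B.C.D.e j)
    rw [dc.pb_e, ← hb.eq] at h2
    exact Int.cast_le.1 h2
  have e3 : ∀ x g, B.C.W.Gen (M.v o).O x g ↔ g ≠ 0 ∧ (M.v o).v g = -x (B.C.D.e o) := fun x g => by
    rw [← B.C.D.v o]
    exact bW.gen_v _ x g
  have s1 : s ∈ B.C.W.H c' := by
    have h2 := hb.H 1
    rw [one_nsmul, one_nsmul] at h2
    exact h2 ▸ hs
  have s2 : B.C.W.Gen (M.v o).O c' s := (e3 c' s).2 (e1.symm ▸ (bM.gen_v o c s).1 hg)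
  obtain ⟨f0, f1⟩ := (bM.gen_v o _ _).1 (bM.gen_f (M.v o).O)
  obtain ⟨b, hb'⟩ := hM.ne o
  obtain ⟨μ, w, hμ, -, hw⟩ := B.amp
  obtain ⟨e₀, he⟩ := hN 3 f B.C.W B.C.ok ⊤ (M.v o).O _ c' s (bM.ov_v o)
    (ck (M.v o) (M.η_ne b o) (hM.dv b o hb').2.1) (fun V a _ => s1 V a) s2
    (rv hU hT (bM.ov_v o) s2 f0 (fun h => by
      have h2 := ((M.v o).un_O.1 h).2
      have h3 := hM.pos o
      rw [h2] at f1
      simp only [Pi.neg_apply, neg_neg, Mod.aa] at f1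
      omega) h0 h1 hn) (-B.C.D.pb w)
  obtain ⟨s₀, h2, h3⟩ := hD
  obtain ⟨n, h4⟩ := exists_nat_gt ((μ : ℚ) / (B.t - s₀))
  obtain ⟨σ, h5, h6⟩ := he (n + e₀ + 1) (by omega)
  have h7 : n ≤ (n + e₀ + 1) * m := le_trans (by omega) (Nat.le_mul_of_pos_right _ hm)
  have h8 : 0 < (n + e₀ + 1) * m := Nat.mul_pos (by omega) hm
  generalize n + e₀ + 1 = e at h5 h6 h7 h8
  have h9 : (0 : ℚ) < (e * m : ℕ) := Nat.cast_pos.2 h8
  have k1 : σ ∈ M.H (e • c - w) := fun V a => by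
    refine bM.oc_mono V _ _ σ (fun j _ => ?_) (dc.push _ (fun V a => h5 V a le_top) V a)
    have := mul_le_mul_of_nonneg_left (e2 j) (Int.natCast_nonneg e)
    simp only [Dom.pf, Pi.add_apply, Pi.neg_apply, Pi.sub_apply, Pi.mul_apply, Pi.natCast_apply,
      nsmul_eq_mul, dc.pb_e]
    omega
  have k2 := h3 (B.t - μ / (e * m : ℕ)) (by
    rw [lt_sub_comm, div_lt_iff₀ h9]
    rw [div_lt_iff₀ (sub_pos.2 h2)] at h4
    have : (n : ℚ) ≤ (e * m : ℕ) := Nat.cast_le.2 h7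
    nlinarith) (sub_lt_self _ (div_pos (Nat.cast_pos.2 hμ) h9)) (e * m) (e • c - w) h8 (by
    rw [M.q_sub, M.q_nsmul, hc, hw]
    funext j
    simp only [Pi.sub_apply, Pi.add_apply, Pi.smul_apply, Pi.mul_apply, Pi.natCast_apply,
      nsmul_eq_mul, smul_eq_mul]
    field_simp
    push_cast
    ring) σ k1
  obtain ⟨k3, k4⟩ := (e3 _ σ).1 h6
  have k5 := k2.resolve_left k3
  simp only [Pi.add_apply, Pi.neg_apply, Pi.sub_apply, Pi.mul_apply, Pi.natCast_apply,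
    nsmul_eq_mul, dc.pb_e, e1] at k4 k5
  omega

/-- A multiple of the normalised mobile part is a mobile part up to the principal divisor. -/
theorem rel (K : Ka B.C) {t : ℚ} (ht : M.nu + t • B.h ∈ B.C.U) {m : ℕ} (hm : 0 < m)
    {c : B.C.W.J → ℤ} (hc : B.C.W.q c = m • B.C.P (B.pt la o t)) :
    ∃ (n k : ℕ) (x : M.J → ℤ) (L : B.C.W.J → ℤ) (ρ : ℤ), 0 < n ∧ 0 < k ∧
      M.q x = k • (M.nu + t • B.h) ∧ Mob B.C x L ∧ n • c = L + ρ • B.C.W.aa := by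
  obtain ⟨μ, x, L, h1, h2, h3⟩ := K.mob _ ht
  set s : ℚ := -((μ * m : ℕ) * (la + t * (B.h o / M.a o))) with hs
  refine ⟨μ * s.den, m * s.den * μ, (m * s.den) • x, (m * s.den) • L, s.num,
    Nat.mul_pos h1 s.den_pos, Nat.mul_pos (Nat.mul_pos hm s.den_pos) h1,
    by rw [M.q_nsmul, h2, smul_smul], K.mob_nsmul _ _ _ h3, B.C.W.q_inj ?_⟩
  rw [B.C.W.q_nsmul, B.C.W.q_add, B.C.W.q_nsmul, B.C.W.q_zsmul, hc, h3.eq, h2, B.pt_eq, map_sub,
    map_smul, K.aa, map_nsmul, ← Rat.mul_den_eq_num s]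
  funext i
  simp only [Pi.smul_apply, Pi.add_apply, Pi.sub_apply]
  simp only [nsmul_eq_mul, smul_eq_mul]
  generalize s.den = D
  rw [hs]
  push_cast
  ring

end RSmall

open RSmall M3I44 in
theorem rowSmall : OfSmall := by
  intro hE hK f la b β Q M r F₀ B o X Y Y' h hD
  have K := hK.ka 3 f M B.C h.sit.ok
  have bW := hE.bas 3 f B.C.W B.C.ok
  have bM := hE.bas 3 f M h.sit.ok
  have hc := h.c0
  obtain ⟨n, k, x, L, ρ, n0, r0, e1, e2, e3⟩ := RSmall.rel K B.mem h.aok.m h.aok.c0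
  obtain ⟨s, s1, s2⟩ := h.aok.T0.2 _ (bW.ov_v (B.C.D.e o))
  have s0 := gen_ne B.C.ok bW (po B.C o) hc (bW.ov_v _) (po B.C o ▸ le_rfl) s2
  have eL : n • Y.c0 + (-ρ) • B.C.W.aa = L := by rw [e3, neg_smul, add_neg_cancel_right]
  have σ1 : s ^ n * ip 3 f ^ (- -ρ) ∈ M.H x := by
    have := e2.H 1
    rw [one_smul, one_smul] at this
    rw [this, ← eL]
    exact fun V hV => bW.oc_mul V _ _ _ _ (bW.oc_pow V _ _ n (h.aok.T0.1 s s1 V hV))
      (bW.gen_oc V _ _ (gen_fz bW V hV B.C.ok _))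
  have σ2 : M.Gen (M.v o).O x (s ^ n * ip 3 f ^ (- -ρ)) := by
    have h1 := (bW.gen_v _ _ _).1 (eL ▸ bW.gen_mul _ _ _ _ _ (bW.gen_pow _ _ _ n s2)
      (gen_fz bW _ (bW.ov_v _) B.C.ok (-ρ)))
    have h2 := congrFun e2.eq (B.C.D.e o)
    rw [h.sit.alive, Mod.q_apply, Mod.q_apply, Int.cast_inj] at h2
    rw [B.C.D.v, h2] at h1
    exact (bM.gen_v _ _ _).2 h1
  have σ3 : ∀ V, Ov V → B.C.W.Gen V L (s ^ n * ip 3 f ^ (- -ρ)) → B.C.W.Gen V Y.c0 s :=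
    fun V hV hg => bW.gen_root V _ _ n n0 (bW.gen_of_mul V _ _ _ _
      (bW.oc_pow V _ _ n (h.aok.T0.1 s s1 V hV)) (bW.gen_oc V _ _ (gen_fz bW V hV B.C.ok _))
      (eL ▸ hg))
  let P := (M.v o).pl
  let S : Set (M.v o).kf := Set.range (fun l => P.π (xx 3 l)) ∪ (fun s' => P.π s' / P.π s) '' Y.T0
  have hS : ∀ y ∈ S, ∃ τ ∈ P.o.F 0, P.π τ = y ∧ Bs B.C.W ⊤ L (s ^ n * ip 3 f ^ (- -ρ)) τ := by
    rintro _ (⟨l, rfl⟩ | ⟨s', hs', rfl⟩)
    · exact ⟨xx 3 l, bM.ov_v o (xp 3 l), rfl, fun V hV _ _ => hV (xp 3 l)⟩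
    · obtain ⟨a1, a2⟩ := pl_div (sec_mem bW (po B.C o) hc (h.aok.T0.1 s' hs'))
        (sec_mem bW (po B.C o) hc (h.aok.T0.1 s s1)) s0
      exact ⟨s' / s, a1, a2, fun V hV _ hg =>
        (bW.oc_div V _ s' s hV (σ3 V hV hg)).1 (h.aok.T0.1 s' hs' V hV)⟩
  have main : ∃ Z : VF (M.v o).kf, Z ≠ 0 ∧ ∀ y ∈ S, Z y = 0 := by
    by_cases h1 : ∃ a ∈ S, ∃ Z : VF (M.v o).kf, Z a ≠ 0
    · obtain ⟨a, ha, Z, hZ⟩ := h1
      refine ⟨M3F.fib X.Co a, fun e => ?_, fun y hy => ?_⟩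
      · obtain ⟨i, hi⟩ := M3F.fib_ne X.Co ⟨Z, hZ⟩
        exact hi (by rw [e]; rfl)
      obtain ⟨τ, τ1, rfl, τ2⟩ := hS a ha
      obtain ⟨τ', τ3, rfl, τ4⟩ := hS y hy
      obtain ⟨Φ, Φ0, Φ1⟩ := wall hE hK.ul hK.tr4 hK.ng K h.sit.ok h.sit.alive hD e1 r0 e2 σ1 σ2
        ![τ, τ'] τ2 τ4
      obtain ⟨k1, k2⟩ := pl_aeval (P := P) (τ := ![τ, τ'])
        (fun i => by fin_cases i; exacts [τ1, τ3]) Φ
      refine kill_dep hZ (M3F.fib_self X.Co) Φ0 ?_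
      rw [← (P.ker _ k1).2 Φ1, k2]
      congr 2
      funext i
      fin_cases i <;> rfl
    · push Not at h1
      refine ⟨X.Co.D 0, fun e => ?_, fun y hy => h1 y hy _⟩
      have := X.Co.dual 0 0
      rw [e] at this
      simp at this
  obtain ⟨Z, Z0, Z1⟩ := main
  refine ⟨Z, Z0, fun g hg => ?_⟩
  let F : IntermediateField ℂ (M.v o).kf :=
    { carrier := {g | Z g = 0}
      mul_mem' := fun {a b} ha hb => by
        show Z (a * b) = 0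
        rw [Derivation.leibniz, show Z a = 0 from ha, show Z b = 0 from hb, smul_zero, smul_zero,
          add_zero]
      add_mem' := fun {a b} ha hb => by
        show Z (a + b) = 0
        rw [map_add, show Z a = 0 from ha, show Z b = 0 from hb, add_zero]
      algebraMap_mem' := fun c => Z.map_algebraMap c
      inv_mem' := fun a ha => by
        show Z a⁻¹ = 0
        rw [Derivation.leibniz_inv, show Z a = 0 from ha, smul_zero] }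
  refine (IntermediateField.adjoin_le_iff.2 ?_ : _ ≤ F) hg
  classical
  rintro _ (⟨l, rfl⟩ | ⟨_, h1, _, h2, rfl⟩)
  · exact Z1 _ (Or.inl ⟨l, rfl⟩)
  · obtain ⟨u, hu, rfl⟩ := mem_image.1 h1
    obtain ⟨u', hu', rfl⟩ := mem_image.1 h2
    rw [← div_div_div_cancel_right₀ s0]
    exact F.div_mem (Z1 _ (Or.inr ⟨u', hu', rfl⟩)) (Z1 _ (Or.inr ⟨u, hu, rfl⟩))

end

end Pool.Agent.MP_ee8c61_ag.N3.P3O
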