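import Pool.Agent.MP_5d9b3c_ag.O3O.Orb
import Pool.Agent.MP_5d9b3c_ag.O3O.Easy
import Pool.Agent.MP_5d9b3c_ag.O3O.RPen
import Pool.Agent.MP_5d9b3c_ag.O3O.RAS
import Pool.Agent.MP_5d9b3c_ag.O3O.RBig
import Pool.Agent.MP_5d9b3c_ag.O3O.RCH
import Pool.Agent.MP_5d9b3c_ag.O3O.RNul
import Pool.Agent.MP_5d9b3c_ag.O3O.ROrd
import Pool.Agent.MP_5d9b3c_ag.O3O.RSmall

/-! The surface datum of an invariant divisor of exponent zero, and its invariant frame. -/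

namespace Pool.Agent.MP_ee8c61_ag.N3.P3O

open Pool.Agent.MP_ee8c61_ag.M3 Pool.Agent.MP_5d9b3c_ag

set_option linter.unusedSectionVars false

variable [Base]

open M3 M3E M3K M3RESID M3F H59 Finset P3 P3T P3G

variable {F : Type} [Field F] [Algebra F ℂ] [Algebra.IsAlgebraic F ℂ] [FB F] {f : Po 3} {la : ℚ}
  {b : Polynomial ℂ} {β : Fin 3 → PX 3 (KK 3)} {Q : PX 3 (KK 3)} {M : Mod 3} {o : M.J}

/-- The datum that is defined over `F`. -/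
theorem orb (E : EOut) (hK : KOut) (R : FRows) (hR : SR1) (hX : M3CH.SBOX)
    (H : Hyp f la b β Q) (hM : M.OK f) (ho : M.ex la o = 0)
    (hf : FxP F f) (hβ : (gaK F 3).InvV (bf la β))
    (hb : ∀ σ : Gm F, σ (b.eval (-(la : ℂ))) = b.eval (-(la : ℂ)))
    (hp : ∀ (σ : Gm F) j, ∃ j', M.v j' = ((gaK F 3).si σ).dv (M.v j))
    (hw : ∃ w, M.Amp w ∧ ∀ (σ : Gm F) j j', M.v j' = ((gaK F 3).si σ).dv (M.v j) → w j' = w j)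
    (hO : (gaK F 3).InvO (M.v o)) :
    ∃ D : SD (M.v o).kf, D.OK ∧ ((gaK F 3).res (M.v o).pl hO).Stab D ∧
      (∀ t, (M.v o).v t = 1 → P3.Ord D ((M.v o).pl.π (ip 3 f / t ^ M.a o)) (M.a o)) ∧
      (D.x = fun l => (M.v o).pl.π (xx 3 l)) ∧ D.b = b.eval (-(la : ℂ)) ∧
      (M.v o).pl.RsD (dvf f la) D.d ∧ (M.v o).pl.Res (dvf f la) (bf la β) D.v ∧
      ((0 < D.t0 ∧ (D.Pt → P3.Pcl ((gaK F 3).res (M.v o).pl hO) D ∨ D.One)) ∨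
        (D.t0 = 0 ∧ D.CC ∧ D.Zc)) := by
  classical
  have cl := cl_rep hM hf hO
  have dsc := dsc_rep E hM hf hp
  obtain ⟨B, hA, hB⟩ := rowCH E hX f M _ o hM cl (hw.imp fun w h => ⟨h.1, iv_of h.2⟩)
  obtain ⟨X₀, hX₀⟩ := R.av f la b β Q M o H hM ho
  obtain ⟨X, x1, x2, x3⟩ := av_inv hM hf hβ hO hX₀
  obtain ⟨Y, Y', y1, y2, y3⟩ := rowAS E f la M _ _ B o hM cl dsc
  have S : St f la b β Q M _ _ B o X Y Y' := ⟨⟨H, hM, ho, hA⟩, cl, dsc, x1, y1, y2, y3⟩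
  have hN := rowNul E
  have hD : B.Dead o := hB.elim (fun h => h.2.2) (B.dead_of hR H hM ho)
  have fx : ∀ g ∈ (gaK F 3).fix, (M.v o).pl.π g ∈ ((gaK F 3).res (M.v o).pl hO).fix :=
    fun g hg σ => by
      have := (GA.cpt_iff.1 ((gaK F 3).res_cpt (M.v o).pl hO) σ).π_pl g
      rw [GA.si_e, hg σ] at this
      exact this.symm
  have st : ∀ T : Finset (KK 3), (∀ g ∈ T, g ∈ (gaK F 3).fix) →
      ((gaK F 3).res (M.v o).pl hO).Stb (T.image (M.v o).pl.π) := fun T h σ s hs => by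
    obtain ⟨g, hg, rfl⟩ := mem_image.1 hs
    rwa [fx g (h g hg) σ]
  refine ⟨B.sd la b o X Y, ⟨ovol R.vol _ _ _ _ _ _ _ _ _ _ _ _ _ S,
    osem E _ _ _ _ _ _ _ _ _ _ _ _ _ S, (hN _ _ _ _ _ _ _ _ _ _ _ _ _ S).1,
    rowBig E hK _ _ _ _ _ _ _ _ _ _ _ _ _ S, rowSmall E hK _ _ _ _ _ _ _ _ _ _ _ _ _ S hD,
    osgn E R.sgn _ _ _ _ _ _ _ _ _ _ _ _ _ S, okvl E R.kvl hN _ _ _ _ _ _ _ _ _ _ _ _ _ S⟩,
    ⟨fun l => fx _ (xx_fix l), st _ y1.K0, st _ y1.K1, fun j => st _ (y1.Kj j.1), x2, x3, hb⟩,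
    rowOrd E hK hN _ _ _ _ _ _ _ _ _ _ _ _ _ S, rfl, rfl, x1.rd, x1.rv,
    hB.imp (fun h => ⟨h.1, fun hp => ?_⟩) fun h =>
      ⟨h, oz E R hR hN _ _ _ _ _ _ _ _ _ _ _ _ _ S h⟩⟩
  refine (rowPen E hK R.vol R.kvl hN (okvl E R.kvl hN) _ _ _ _ _ _ _ _ _ _ _ _ _ S h.2.1 hp).imp_left
    ?_
  rintro ⟨_, ⟨g, g1, -, rfl⟩, g2⟩
  exact ⟨_, fx g g1, g2⟩

/-- The frame that is defined over `F`. -/
theorem starP (E : EOut) (hK : KOut) (R : FRows) (hR : SR1) (hX : M3CH.SBOX) (f1 : P3.LF1)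
    (f2 : P3.LF2) (f3 : P3.LF3) (vc : P3.LVc) (vz : P3.LVz)
    (H : Hyp f la b β Q) (hM : M.OK f) (ho : M.ex la o = 0)
    (hf : FxP F f) (hβ : (gaK F 3).InvV (bf la β))
    (hb : ∀ σ : Gm F, σ (b.eval (-(la : ℂ))) = b.eval (-(la : ℂ)))
    (hp : ∀ (σ : Gm F) j, ∃ j', M.v j' = ((gaK F 3).si σ).dv (M.v j))
    (hw : ∃ w, M.Amp w ∧ ∀ (σ : Gm F) j j', M.v j' = ((gaK F 3).si σ).dv (M.v j) → w j' = w j)
    (hO : (gaK F 3).InvO (M.v o)) {t : KK 3} (ht : (M.v o).v t = 1) :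
    ∃ (e : Dv (M.v o).kf) (v v' : VF (M.v o).kf) (y : (M.v o).kf) (g : ℚ),
      (M.v o).pl.RsD (dvf f la) e ∧ (M.v o).pl.Res (dvf f la) (bf la β) v ∧
      ((gaK F 3).res (M.v o).pl hO).InvD e ∧ ((gaK F 3).res (M.v o).pl hO).InvV v ∧
      ((gaK F 3).res (M.v o).pl hO).StarP e v (b.eval (-(la : ℂ)))
        (Set.range fun l => (M.v o).pl.π (xx 3 l)) ((M.v o).pl.π (ip 3 f / t ^ M.a o)) (M.a o)
        v' y g := by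
  obtain ⟨D, d1, d2, d3, d4, d5, d6, d7, d8⟩ := orb E hK R hR hX H hM ho hf hβ hb hp hw hO
  rw [← d4, ← d5]
  suffices h : ∃ v' y g, ((gaK F 3).res (M.v o).pl hO).StarP D.d D.v D.b (Set.range D.x)
      ((M.v o).pl.π (ip 3 f / t ^ M.a o)) (M.a o) v' y g by
    obtain ⟨v', y, g, h⟩ := h
    exact ⟨_, _, v', y, g, d6, d7, d2.d, d2.v, h⟩
  by_cases hP : D.Pt
  · rcases d8 with ⟨h1, h2⟩ | ⟨h1, h2, h3⟩
    · exact (h2 hP).elim (fun h => f2 F _ _ D _ _ d1 d2 (d3 t ht) ⟨h1, hP, h⟩) fun h =>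
        vc F _ _ D _ _ d1 d2 (d3 t ht) ⟨h1, hP, h⟩
    · exact vz F _ _ D _ _ d1 d2 (d3 t ht) ⟨h1, h2, h3, hP⟩
  · rcases d8 with ⟨h1, -⟩ | ⟨h1, h2, h3⟩
    · exact f1 F _ _ D _ _ d1 d2 (d3 t ht) ⟨h1, hP⟩
    · exact f3 F _ _ D _ _ d1 d2 (d3 t ht) ⟨h1, h2, h3, hP⟩

end Pool.Agent.MP_ee8c61_ag.N3.P3O
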