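import Pool.Agent.MP_ee8c61_ag.N3.Frame
import Pool.Agent.MP_ee8c61_ag.N3K.Out
import Pool.Agent.MP_ee8c61_ag.N3CH.Spec

/-!
The surface datum of a divisor for a partition of the divisors into classes. The map `r` sends a
divisor to the representative of its class. Every `OfX` is one task.
-/

namespace Pool.Agent.MP_ee8c61_ag.N3.P3O

open Pool.Agent.MP_ee8c61_ag.M3

set_option linter.unusedSectionVars false

variable [Base]

open M3 M3E M3K M3RESID M3F H59 Finset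

noncomputable section

/-- `d` is constant on the classes. -/
def Iv {J R : Type} (r : J → J) (d : J → R) : Prop := ∀ j, d (r j) = d j

/-- The sum of the divisors in the class of the representative `O`. -/
def cs {J : Type} [DecidableEq J] (r : J → J) (O : J) : J → ℚ := fun j => if r j = O then 1 else 0

/-- `d` is an interior point of `U` in the invariant directions. -/
def InG {J : Type} (r : J → J) (U : Set (J → ℚ)) (d : J → ℚ) : Prop :=
  ∀ u, Iv r u → ∃ δ : ℚ, 0 < δ ∧ d + δ • u ∈ U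

/-- The classes are compatible with the numerical data, and `o` is alone in its class. -/
structure Cl (M : Mod 3) (r : M.J → M.J) (o : M.J) : Prop where
  idem : ∀ j, r (r j) = r j
  one : ∀ j, r j = o ↔ j = o
  a : Iv r M.a
  k : Iv r M.k

/-- The sections of an invariant divisor are spanned by the sections in `K`. -/
def Dsc (M : Mod 3) (r : M.J → M.J) (K : Subfield (KK 3)) : Prop :=
  ∀ c : M.J → ℤ, Iv r c → ∀ g ∈ M.H c, g ∈ Submodule.span ℂ (M.H c ∩ K)

/-- A chamber `C` whose closure contains a piece of the invariant segment `nu + s h`, which enters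
at time `t`. -/
structure OC (f : Po 3) (M : Mod 3) (r : M.J → M.J) where
  C : Ch f M
  h : M.J → ℚ
  t : ℚ
  iv : Iv r h
  amp : M.AmpQ h
  t0 : 0 ≤ t
  mem : M.nu + t • h ∈ C.U
  inn : ∃ s : ℚ, t < s ∧ InG r C.U (M.nu + s • h)
  tr : ∀ d ∈ C.U, ∀ s : ℚ, d + s • M.q M.aa ∈ C.U
  zero : t = 0 → C.t = 0

namespace OC

variable {f : Po 3} {M : Mod 3} {r : M.J → M.J} (B : OC f M r)

/-- Just before time `t` all sections vanish along the divisor `o`. -/
def Dead (o : M.J) : Prop :=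
  ∃ s₀ : ℚ, s₀ < B.t ∧ ∀ s : ℚ, s₀ < s → s < B.t → ∀ (m : ℕ) (c : M.J → ℤ), 0 < m →
    M.q c = m • (M.nu + s • B.h) → ∀ g ∈ M.H c, g ∈ (M.v o).F (1 - c o)

/-- The segment enters through the interior of a facet of the invariant part. -/
def Facet : Prop := ∃ w : (M.J → ℚ) →ₗ[ℚ] ℚ, ∀ u, Iv r u → w u = 0 →
  ∃ δ : ℚ, 0 < δ ∧ M.nu + B.t • B.h + δ • u ∈ B.C.U

/-- The divisor `o` dies on a wall. -/
def Death (o : M.J) : Prop := 0 < B.t ∧ B.Facet ∧ B.Dead o

/-- The ample direction, normalised at `o`. -/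
def hp (o : M.J) : M.J → ℚ := B.h - (B.h o / M.a o) • M.q M.aa

/-- The point of the segment, normalised at `o`. -/
def pt (la : ℚ) (o : M.J) (t : ℚ) : M.J → ℚ := M.ex la + t • B.hp o

/-- Generators in `K` of the semiample invariant divisors. -/
structure AOK (la : ℚ) (K : Subfield (KK 3)) {o : M.J} (Y : B.C.AS o) : Prop where
  t1 : B.t < Y.t1
  inn : InG r B.C.U (M.nu + Y.t1 • B.h)
  ε : 0 < Y.ε
  m : 0 < Y.m
  c0 : B.C.W.q Y.c0 = Y.m • B.C.P (B.pt la o B.t)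
  c1 : B.C.W.q Y.c1 = Y.m • B.C.P (B.pt la o Y.t1)
  cj : ∀ j, B.C.W.q (Y.cj j) = Y.m • B.C.P (B.pt la o Y.t1 + Y.ε • cs r j)
  T0 : B.C.W.Gens Y.c0 Y.T0
  T1 : B.C.W.Gens Y.c1 Y.T1
  Tj : ∀ j, B.C.W.Gens (Y.cj j) (Y.Tj j)
  K0 : ∀ g ∈ Y.T0, g ∈ K
  K1 : ∀ g ∈ Y.T1, g ∈ K
  Kj : ∀ j, ∀ g ∈ Y.Tj j, g ∈ K

/-- The representatives of the other classes. -/
def Rp (r : M.J → M.J) (o : M.J) : Type := {j : M.J // j ≠ o ∧ r j = j}

instance (o : M.J) : Fintype (Rp r o) := Subtype.fintype _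

open Classical in
/-- The surface datum of the divisor `o`, indexed by the classes. -/
def sd (la : ℚ) (b : Polynomial ℂ) (o : M.J) (X : Ch.AV (M := M) o) (Y : B.C.AS o) :
    SD (M.v o).kf where
  A := Rp r o
  fA := inferInstance
  x l := (M.v o).pl.π (xx 3 l)
  C := X.Co
  q := X.q
  ψ := X.ψ
  d := X.d
  v := X.v
  b := b.eval (-(la : ℂ))
  al j := M.ex la j.1
  h j := B.hp o j.1
  β j Γ := ∑ i, B.C.P (cs r j.1) i * B.C.W.tr (M.v o).pl Γ i
  ex Γ := Classical.epsilon fun a : ℚ => Exp X.d Γ a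
  t0 := B.t
  t1 := Y.t1
  ε := Y.ε
  m := Y.m
  S0 := Y.T0.image (M.v o).pl.π
  S1 := Y.T1.image (M.v o).pl.π
  Sj j := (Y.Tj j.1).image (M.v o).pl.π

end OC

/-- A pencil in `S` whose contracted horizontal curves have log discrepancy zero. -/
def PclK {L : Type} [Field L] [Algebra ℂ L] (D : SD L) (S : Set L) : Prop :=
  ∃ φ ∈ S, (∃ X : VF L, X φ ≠ 0) ∧
    ∀ Γ, M3.Cv D.x Γ → Null D.x D.S1 Γ → NC Γ φ → D.ex Γ = D.α Γ

/-- On ordinary curves that are not contracted the order of `u` is a multiple of `N`. -/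
def OrdN {L : Type} [Field L] [Algebra ℂ L] (D : SD L) (u : L) (N : ℕ) : Prop :=
  ∀ Γ, M3.Cv D.x Γ → ¬Null D.x D.S1 Γ → (∀ j, D.β j Γ = 0) → D.ex Γ = 1 → (N : ℤ) ∣ Γ.v u

/-- The residues of the elements of `K`. -/
def resK {M : Mod 3} (o : M.J) (K : Subfield (KK 3)) : Set (M.v o).kf :=
  {y | ∃ g ∈ K, g ∈ (M.v o).F 0 ∧ (M.v o).pl.π g = y}

/-- The standing hypotheses: `Y` belongs to the invariant segment, `Y'` to the chamber. -/
structure St (f : Po 3) (la : ℚ) (b : Polynomial ℂ) (β : Fin 3 → PX 3 (KK 3)) (Q : PX 3 (KK 3))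
    (M : Mod 3) (r : M.J → M.J) (K : Subfield (KK 3)) (B : OC f M r) (o : M.J)
    (X : Ch.AV (M := M) o) (Y Y' : B.C.AS o) : Prop where
  sit : Sit f la b β Q M B.C o
  cl : Cl M r o
  dsc : Dsc M r K
  av : X.OK f la β
  aok : B.AOK la K Y
  as : Y'.OK la
  eq : B.t = 0 → Y'.T0 = Y.T0

/-- A statement about all data; `D` is the datum of the classes, `D'` that of the chamber. -/
def AllO (p : ∀ {f : Po 3} {M : Mod 3} {r : M.J → M.J} (_ : OC f M r) (_ : Subfield (KK 3))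
    (o : M.J), SD (M.v o).kf → SD (M.v o).kf → Prop) : Prop :=
  ∀ (f : Po 3) (la : ℚ) (b : Polynomial ℂ) (β : Fin 3 → PX 3 (KK 3)) (Q : PX 3 (KK 3))
    (M : Mod 3) (r : M.J → M.J) (K : Subfield (KK 3)) (B : OC f M r) (o : M.J)
    (X : Ch.AV (M := M) o) (Y Y' : B.C.AS o), St f la b β Q M r K B o X Y Y' →
    p B K o (B.sd la b o X Y) (B.C.sd la b o X Y')

/-- Every divisor that is alone in its class dies on a wall or survives. -/
def OCH : Prop := ∀ (f : Po 3) (M : Mod 3) (r : M.J → M.J) (o : M.J), M.OK f → Cl M r o →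
  (∃ w, M.Amp w ∧ Iv r w) → ∃ B : OC f M r, B.C.Alive o ∧ (B.Death o ∨ B.t = 0)

def OfCH : Prop := EOut → M3CH.SBOX → OCH

def OAS : Prop := ∀ (f : Po 3) (la : ℚ) (M : Mod 3) (r : M.J → M.J) (K : Subfield (KK 3))
  (B : OC f M r) (o : M.J), M.OK f → Cl M r o → Dsc M r K →
  ∃ Y Y' : B.C.AS o, B.AOK la K Y ∧ Y'.OK la ∧ (B.t = 0 → Y'.T0 = Y.T0)

def OfAS : Prop := EOut → OAS

def OSem : Prop := AllO fun _ _ _ D _ => D.Sem

def ONul : Prop := AllO fun _ _ _ D D' => D.Nul ∧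
  ∀ Γ, M3.Cv D.x Γ → Null D.x D'.S1 Γ → Null D.x D.S1 Γ

def OfNul : Prop := EOut → ONul

def OBig : Prop := AllO fun _ _ _ D _ => D.Big

def OfBig : Prop := EOut → KOut → OBig

def OSmall : Prop := AllO fun B _ o D _ => B.Dead o → D.Small

def OfSmall : Prop := EOut → KOut → OSmall

def OSgn : Prop := AllO fun _ _ _ D _ => D.Sgn

def OKvl : Prop := AllO fun _ _ _ D _ => D.Kvl

def OPen : Prop := AllO fun B K o D _ => B.Facet → D.Pt → PclK D (resK o K) ∨ D.One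

def OfPen : Prop := EOut → KOut → IVol → IKvl → ONul → OKvl → OPen

def OOrd : Prop := AllO fun {f M _} _ _ o D _ => ∀ t, (M.v o).v t = 1 →
  OrdN D ((M.v o).pl.π (ip 3 f / t ^ M.a o)) (M.a o)

def OfOrd : Prop := EOut → KOut → ONul → OOrd

def OZ : Prop := AllO fun B _ _ D _ => B.t = 0 → D.CC ∧ D.Zc

end

end Pool.Agent.MP_ee8c61_ag.N3.P3O
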